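import Pool.Agent.N483.KM.Stm3
import Pool.Agent.R754.KG.G
import Pool.Agent.R476.OR.Rl
import Pool.Agent.R476.OR.H
import Pool.Agent.Y824.PV.Cap

/-!
# Concentration for intersections of generalised Orlicz balls: from real valued functions to
functions with values in `[0, ∞]`
-/

set_option autoImplicit false

namespace Pool.Agent.N539.KM.ORX

open MeasureTheory Set Filter Topology
open scoped ENNReal InnerProductSpace
open Pool.Agent.R754.KG (E un sl Rv)
open Pool.Agent.R755.KF (CB)
open Pool.Agent.Y506.PV (CcW ind)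
open Pool.Agent.N483.KM

theorem sl_closed {r n : ℕ} {V : Fin r → Fin n → ℝ → ℝ} (s : Fin r → ℝ)
    (hV : ∀ j i, ConvexOn ℝ univ (V j i)) : IsClosed (SL V s) := by
  have e : SL V s = ⋂ j, {x : E n | ∑ i, V j i (x i) ≤ s j} := by
    ext x
    simp [SL]
  rw [e]
  refine isClosed_iInter fun j => isClosed_le ?_ continuous_const
  exact continuous_finsetSum _ fun i _ =>
    (Pool.Agent.R476.OR.cont_conv (hV j i)).comp (by fun_prop)

theorem sl_convex {r n : ℕ} {V : Fin r → Fin n → ℝ → ℝ} (s : Fin r → ℝ)
    (hV : ∀ j i, ConvexOn ℝ univ (V j i)) : Convex ℝ (SL V s) := by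
  intro x hx y hy a b ha hb hab j
  have h1 := hx j
  have h2 := hy j
  have h3 : ∑ i, V j i ((a • x + b • y : E n) i) ≤ ∑ i, (a * V j i (x i) + b * V j i (y i)) := by
    refine Finset.sum_le_sum fun i _ => ?_
    have := (hV j i).2 (mem_univ (x i)) (mem_univ (y i)) ha hb hab
    simpa using this
  rw [Finset.sum_add_distrib, ← Finset.mul_sum, ← Finset.mul_sum] at h3
  have h4 : a * ∑ i, V j i (x i) ≤ a * s j := mul_le_mul_of_nonneg_left h1 ha
  have h5 : b * ∑ i, V j i (y i) ≤ b * s j := mul_le_mul_of_nonneg_left h2 hb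
  have h6 : a * s j + b * s j = s j := by rw [← add_mul, hab, one_mul]
  linarith

theorem int_ind {n : ℕ} {K : Set (E n)} (hK : MeasurableSet K) (hb : Bornology.IsBounded K) :
    Integrable (fun x => (1 + ‖x‖ ^ 2) * ind K x) := Pool.Agent.R476.OR.h_integrable hK hb

/-- O7: concentration for intersections of generalised Orlicz balls -/
theorem t_ORX (h1 : S_OAP) (h2 : S_ORR) : Pool.Agent.N483.KM.S_ORX := by
  intro r δ hδ
  obtain ⟨κ, hκ, H⟩ := h2 r δ hδ
  refine ⟨κ / 2, by linarith, fun n V e hV hb hint => ?_⟩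
  obtain ⟨x0, hx0⟩ := hint
  obtain ⟨U, f, hUc, hU0, hUb, hUs, hmon, hcap⟩ := h1 r n V e hV hb ⟨x0, interior_subset hx0⟩
  obtain ⟨K, hK⟩ : ∃ K : Set (E n), K = SX V e := ⟨_, rfl⟩
  obtain ⟨Km, hKm⟩ : ∃ Km : ℕ → Set (E n), Km = fun m => SL (U m) (f m) := ⟨_, rfl⟩
  have hcap' : K = ⋂ m, Km m := by
    rw [hK, hKm]
    exact hcap.symm
  rw [← hK] at hb hx0 ⊢
  have hcl : ∀ m, IsClosed (Km m) := fun m => by
    rw [hKm]
    exact sl_closed _ (hUc m)
  have hcv : ∀ m, Convex ℝ (Km m) := fun m => by
    rw [hKm]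
    exact sl_convex _ (hUc m)
  have hbd : ∀ m, Bornology.IsBounded (Km m) := fun m => by
    rw [hKm]
    exact hUb m
  have hanti : Antitone Km := antitone_nat_of_succ_le fun m => by
    rw [hKm]
    exact hmon m
  have hKcl : IsClosed K := by
    rw [hcap']
    exact isClosed_iInter hcl
  have hKc : IsCompact K := Metric.isCompact_of_isClosed_isBounded hKcl hb
  have hKv : Convex ℝ K := by
    rw [hcap']
    exact convex_iInter hcv
  refine ⟨hKc, hKv, ?_⟩
  rcases Nat.eq_zero_or_pos n with rfl | hn
  · exact Pool.Agent.R754.KG.cc_zero hδ.le K hKc ⟨x0, hx0⟩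
  have hcc : ∀ m, CcW κ δ (ind (Km m)) := fun m => by
    rw [hKm]
    exact H n (U m) (f m) hn (hUc m) (hU0 m) (hUb m) (hUs m)
  have hKsub : ∀ j, K ⊆ Km j := fun j => by
    rw [hcap']
    exact iInter_subset _ _
  have hKms : MeasurableSet K := hKcl.measurableSet
  have hKjm : ∀ j, MeasurableSet (Km j) := fun j => (hcl j).measurableSet
  have hpos : 0 < ∫ x, ind K x := by
    have hvpos : 0 < volume K := Pool.Agent.Y506.PV.vol_pos ⟨x0, hx0⟩
    have hvfin : volume K < ∞ := hb.measure_lt_top
    unfold ind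
    rw [integral_indicator hKms, setIntegral_const, smul_eq_mul, mul_one]
    exact ENNReal.toReal_pos hvpos.ne' hvfin.ne
  refine Pool.Agent.Y824.PV.limc n κ δ (ind K) (fun j => ind (Km j)) hκ (int_ind hKms hb) hpos
    (fun j => int_ind (hKjm j) (hbd j)) ?_ (Eventually.of_forall hcc)
  -- convergence
  have hlim : Tendsto (fun j => ∫ x, (1 + ‖x‖ ^ 2) * |ind (Km j) x - ind K x|) atTop
      (𝓝 (∫ _x : E n, (0 : ℝ))) := by
    have hdiff : ∀ j x, ind (Km j) x - ind K x = ind (Km j \ K) x := by
      intro j x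
      unfold ind
      by_cases h1 : x ∈ K
      · have h2 := hKsub j h1
        rw [indicator_of_mem h2, indicator_of_mem h1, indicator_of_notMem (by simp [h1])]
        ring
      · by_cases h2 : x ∈ Km j
        · rw [indicator_of_mem h2, indicator_of_notMem h1,
            indicator_of_mem (show x ∈ Km j \ K from ⟨h2, h1⟩)]
          ring
        · rw [indicator_of_notMem h2, indicator_of_notMem h1, indicator_of_notMem (by simp [h2])]
          ring
    have hind : ∀ (S : Set (E n)) x, 0 ≤ ind S x := fun S x =>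
      indicator_nonneg (fun _ _ => zero_le_one) x
    refine tendsto_integral_of_dominated_convergence
      (fun x => (1 + ‖x‖ ^ 2) * ind (Km 0) x) (fun j => ?_)
      (int_ind (hKjm 0) (hbd 0)) (fun j => Eventually.of_forall fun x => ?_)
      (Eventually.of_forall fun x => ?_)
    · have e : (fun x => (1 + ‖x‖ ^ 2) * |ind (Km j) x - ind K x|)
          = fun x => (1 + ‖x‖ ^ 2) * ind (Km j \ K) x := by
        funext x
        rw [hdiff, abs_of_nonneg (hind _ _)]
      rw [e]
      exact (int_ind ((hKjm j).diff hKms) ((hbd j).subset sdiff_subset)).aestronglyMeasurable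
    · rw [Real.norm_eq_abs, hdiff, abs_mul, abs_abs, abs_of_nonneg (hind _ _),
        abs_of_pos (by positivity)]
      apply mul_le_mul_of_nonneg_left _ (by positivity)
      unfold ind
      exact indicator_le_indicator_of_subset (sdiff_subset.trans (hanti (Nat.zero_le j)))
        (fun _ => zero_le_one) x
    · apply tendsto_const_nhds.congr'
      have hev : ∀ᶠ j in atTop, x ∉ Km j \ K := by
        by_cases h1 : x ∈ K
        · exact Eventually.of_forall fun j hj => hj.2 h1
        · have h3 : ∃ k, x ∉ Km k := by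
            by_contra hcon
            push Not at hcon
            exact h1 (by rw [hcap']; exact mem_iInter.2 hcon)
          obtain ⟨k, hk⟩ := h3
          filter_upwards [eventually_ge_atTop k] with j hj hj2
          exact hk (hanti hj hj2.1)
      filter_upwards [hev] with j hj
      rw [hdiff]
      unfold ind
      rw [indicator_of_notMem hj]
      simp
  simpa using hlim

end Pool.Agent.N539.KM.ORX
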